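import Pool.Agent.H78.GX.H6.N4D.TA

/-!
# Row LOC of n4d_modules: local constancy
-/

set_option autoImplicit false

open Finset

namespace Pool.Agent.H78.GX.H51.N4D

open Pool.Agent.H6.N4D Pool.Agent.H78.GX.H6.N4D Pool.Agent.H78.GX

theorem loc_dg_neg (g : ℤ → ℂ) (w : ℤ) : Dg g w = Dg g (-w) := by
  unfold Dg
  rw [← (Equiv.addRight w).tsum_eq (fun t : ℤ => ‖g (t + -w) - g t‖ ^ 2)]
  refine tsum_congr fun t => ?_
  have h1 : (Equiv.addRight w) t = t + w := rfl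
  rw [h1, show t + w + -w = t by ring, norm_sub_rev]

theorem loc_summable (g : ℤ → ℂ) (hg : (Function.support g).Finite) (v : ℤ) :
    Summable fun t : ℤ => ‖g (t + v) - g t‖ ^ 2 := by
  refine summable_of_hasFiniteSupport ?_
  have h1 : (Function.support fun t : ℤ => g (t + v)).Finite := by
    have h2 := hg.preimage (f := fun t : ℤ => t + v) (by
      intro a _ b _ hab
      simpa using hab)
    exact h2
  refine (h1.union hg).subset fun t ht => ?_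
  by_contra hn
  rw [Set.mem_union, not_or] at hn
  have e1 : g (t + v) = 0 := by
    by_contra h
    exact hn.1 h
  have e2 : g t = 0 := by
    by_contra h
    exact hn.2 h
  apply ht
  change ‖g (t + v) - g t‖ ^ 2 = 0
  rw [e1, e2]
  simp

theorem pf_LOC (hSPC : T_SPC) (hPWP : T_PWP) (hCHI : T_CHI) (hCUT : T_CUT) (hSQR : T_SQR)
    (hWTS : T_WTS) (hSIZ : T_SIZ) : T_LOC := by
  intro B c X₁ hG M hM
  obtain ⟨C₀, X₂, hC₀, hP⟩ := hPWP B c X₁ hG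
  have hB2 : 2 ≤ B := hG.2.1
  obtain ⟨X₃, hX₃⟩ := hWTS.2.1 B (by omega)
  obtain ⟨X₄, hX₄⟩ := hSIZ
  refine ⟨C₀ * (2 * (B + 4 * M ^ 2) + 4 * M ^ 2 * ((B : ℝ) + 1) ^ 2 * B) +
    4 * (10 * M ^ 2 + 4 * M ^ 2) + 1, ?_, fun K hBK => ⟨max X₂ (max X₃ X₄), ?_⟩⟩
  · have h1 : 0 ≤ C₀ * (2 * (B + 4 * M ^ 2) + 4 * M ^ 2 * ((B : ℝ) + 1) ^ 2 * B) := by positivity
    have h2 : 0 ≤ 4 * (10 * M ^ 2 + 4 * M ^ 2) := by positivity
    linarith
  intro S hS hSK hSX ε f hε hε1 hf hE v hv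
  have hSX2 : X₂ ≤ S.X := le_trans (le_max_left _ _) hSX
  have hSX3 : X₃ ≤ S.X := le_trans (le_trans (le_max_left _ _) (le_max_right _ _)) hSX
  have hSX4 : X₄ ≤ S.X := le_trans (le_trans (le_max_right _ _) (le_max_right _ _)) hSX
  obtain ⟨hL1, hP100, -, hr100, hhr, -, hVr, hV1, -, hlp, -, hN, -⟩ := hX₄ S hS hSX4
  have hL0 : 0 < S.L := lt_of_lt_of_le one_pos hL1
  obtain ⟨hchi1, hchi2, hchi3, -⟩ := hCHI S hS hL0
  have hK0 : (0 : ℝ) < K := by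
    have : 0 < K := by omega
    exact_mod_cast this
  have hh : 0 < S.h := hS.hh
  have hr0 : 0 < S.rho := hS.hr0
  have hr21 : S.rho ^ 2 ≤ 1 := by nlinarith
  have hr41 : S.rho ^ 4 ≤ 1 := by nlinarith [sq_nonneg S.rho, sq_nonneg (S.rho ^ 2)]
  have hh1 : S.h ≤ 1 := le_trans hhr hr41
  set g : ℤ → ℂ := fun t => (chi S t : ℂ) * f t with hg
  have hgs : (Function.support g).Finite := by
    refine (Finset.finite_toSet S.I).subset fun t ht => ?_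
    by_contra hn
    apply ht
    have h1 : chi S t = 0 := hchi2 t hn
    rw [hg]
    simp only [h1, Complex.ofReal_zero, zero_mul]
  -- the left side
  have hleft : ∑ t ∈ (In S 1).filter (fun t => t + v ∈ In S 1), ‖f (t + v) - f t‖ ^ 2 ≤
      Dg g v := by
    have h1 : ∑ t ∈ (In S 1).filter (fun t => t + v ∈ In S 1), ‖f (t + v) - f t‖ ^ 2 =
        ∑ t ∈ (In S 1).filter (fun t => t + v ∈ In S 1), ‖g (t + v) - g t‖ ^ 2 := by
      refine Finset.sum_congr rfl fun t ht => ?_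
      rw [Finset.mem_filter] at ht
      have e1 : g (t + v) = f (t + v) := by
        rw [hg]
        simp only [hchi3 _ ht.2, Complex.ofReal_one, one_mul]
      have e2 : g t = f t := by
        rw [hg]
        simp only [hchi3 _ ht.1, Complex.ofReal_one, one_mul]
      rw [e1, e2]
    rw [h1]
    exact (loc_summable g hgs v).sum_le_tsum _ fun t _ => by positivity
  -- the comparison
  set A := Pr S.P (S.P ^ B) with hA
  have hspc := hSPC g hgs (ℕ ⊕ ℕ) (A.disjSum (Icc 1 S.V))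
    (Sum.elim (fun p => C₀ / (p : ℝ)) (fun _ => 4 / (S.V : ℝ)))
    (Sum.elim (fun p => S.l p) (fun w => (w : ℤ))) v (by
      intro ξ
      refine le_trans (hP S hS hSX2 v hv ξ) (le_of_eq ?_)
      rw [Finset.sum_disjSum]
      simp only [Sum.elim_inl, Sum.elim_inr, Int.cast_natCast]
      rw [Finset.mul_sum, Finset.mul_sum]
      congr 1
      refine Finset.sum_congr rfl fun p _ => ?_
      ring)
  rw [Finset.sum_disjSum] at hspc
  simp only [Sum.elim_inl, Sum.elim_inr] at hspc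
  -- the primes
  have hPpos : 0 < S.P := Par.P_pos
  have hP1 : 1 ≤ S.P := by linarith
  have hwt : ∑ p ∈ A, 1 / (p : ℝ) ≤ B := hX₃ S.X hSX3
  have hAQ : A ⊆ S.Q := by
    intro p hp
    rw [hA, mem_Pr (by positivity)] at hp
    unfold Par.Q
    rw [mem_Pr (by positivity)]
    refine ⟨hp.1, le_trans hp.2.1 ?_, hp.2.2⟩
    exact pow_le_pow_right₀ hP1 (by rw [hSK]; omega)
  obtain ⟨hsq1, hsq2⟩ := hSQR S M ε f hS hL0 hε hε1 hM hf hE
  have hKL : 0 < (S.K : ℝ) * S.L := by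
    rw [hSK]
    positivity
  have hpr : ∀ p ∈ A, Dg g (S.l p) ≤ 2 * Asq S f (S.l p) +
      4 * M ^ 2 * (((B : ℝ) + 1) / K) ^ 2 * S.N := by
    intro p hp
    rw [hA, mem_Pr (by positivity)] at hp
    have h1 := (hCUT S hS hL0 M f hf (S.l p)).1
    refine le_trans h1 ?_
    have hp1 : 1 ≤ p := hp.2.2.one_le
    have hpr : (0 : ℝ) < p := by exact_mod_cast hp1
    have h2 := hlp p hp1
    have hlog0 : 0 ≤ Real.log p := Real.log_natCast_nonneg p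
    have hlog : Real.log p ≤ B * S.L := by
      have h3 := Real.log_le_log hpr hp.2.1
      rw [Real.log_pow, Par.log_P] at h3
      exact h3
    have h4 : |(S.l p : ℝ)| * S.h ≤ ((B : ℝ) + 1) * S.L := by
      have h5 : |(S.l p : ℝ)| * S.h = |S.h * S.l p| := by
        rw [abs_mul, abs_of_pos hh]
        ring
      rw [h5]
      rw [abs_le] at h2 ⊢
      have hBL : 0 ≤ (B : ℝ) * S.L := by positivity
      have hBL' : ((B : ℝ) + 1) * S.L = B * S.L + S.L := by ring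
      rw [hBL']
      constructor
      · linarith [h2.1]
      · linarith [h2.2]
    have h6 : |(S.l p : ℝ)| * S.h / (S.K * S.L) ≤ ((B : ℝ) + 1) / K := by
      rw [div_le_div_iff₀ hKL hK0, hSK]
      have h61 := mul_le_mul_of_nonneg_right h4 hK0.le
      have h62 : ((B : ℝ) + 1) * S.L * K = ((B : ℝ) + 1) * (K * S.L) := by ring
      rw [← h62]
      exact h61
    have h7 : 0 ≤ |(S.l p : ℝ)| * S.h / (S.K * S.L) := by positivity
    have h8 : (|(S.l p : ℝ)| * S.h / (S.K * S.L)) ^ 2 ≤ (((B : ℝ) + 1) / K) ^ 2 := by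
      gcongr
    have h9 : 4 * M ^ 2 * (|(S.l p : ℝ)| * S.h / (S.K * S.L)) ^ 2 * S.N ≤
        4 * M ^ 2 * (((B : ℝ) + 1) / K) ^ 2 * S.N := by gcongr
    linarith
  have hsum1 : ∑ p ∈ A, C₀ / (p : ℝ) * Dg g (S.l p) ≤
      C₀ * (2 * (ε ^ 2 * B + 4 * M ^ 2 * ε) * S.N +
        4 * M ^ 2 * (((B : ℝ) + 1) / K) ^ 2 * S.N * B) := by
    have h1 : ∑ p ∈ A, C₀ / (p : ℝ) * Dg g (S.l p) ≤
        ∑ p ∈ A, C₀ * (2 * (1 / (p : ℝ) * Asq S f (S.l p)) +
          4 * M ^ 2 * (((B : ℝ) + 1) / K) ^ 2 * S.N * (1 / (p : ℝ))) := by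
      refine Finset.sum_le_sum fun p hp => ?_
      have h2 := hpr p hp
      have h3 : (0 : ℝ) ≤ C₀ / (p : ℝ) := by positivity
      calc C₀ / (p : ℝ) * Dg g (S.l p) ≤ C₀ / (p : ℝ) * (2 * Asq S f (S.l p) +
            4 * M ^ 2 * (((B : ℝ) + 1) / K) ^ 2 * S.N) := by gcongr
        _ = _ := by ring
    refine le_trans h1 ?_
    rw [← Finset.mul_sum, Finset.sum_add_distrib, ← Finset.mul_sum, ← Finset.mul_sum]
    have h4 := hsq1 A hAQ
    have h5 : (ε ^ 2 * ∑ p ∈ A, 1 / (p : ℝ) + 4 * M ^ 2 * ε) * S.N ≤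
        (ε ^ 2 * B + 4 * M ^ 2 * ε) * S.N := by gcongr
    have h6 : 4 * M ^ 2 * (((B : ℝ) + 1) / K) ^ 2 * S.N * ∑ p ∈ A, 1 / (p : ℝ) ≤
        4 * M ^ 2 * (((B : ℝ) + 1) / K) ^ 2 * S.N * B := by gcongr
    have h7 : 2 * ∑ p ∈ A, 1 / (p : ℝ) * Asq S f (S.l p) ≤
        2 * (ε ^ 2 * B + 4 * M ^ 2 * ε) * S.N := by linarith
    exact mul_le_mul_of_nonneg_left (add_le_add h7 h6) hC₀.le
  -- the small shifts
  have hw : ∀ w ∈ Icc 1 S.V, Dg g (w : ℤ) ≤ (10 * M ^ 2 * ε + 4 * M ^ 2 * (1 / K) ^ 2) * S.N := by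
    intro w hw
    rw [Finset.mem_Icc] at hw
    rw [loc_dg_neg]
    have h1 := (hCUT S hS hL0 M f hf (-(w : ℤ))).1
    have h2 := hsq2 w hw.1 hw.2
    refine le_trans h1 ?_
    have h3 : |((-(w : ℤ) : ℤ) : ℝ)| = w := by
      push_cast
      rw [abs_neg]
      exact abs_of_nonneg (Nat.cast_nonneg w)
    rw [h3]
    have h4 : (w : ℝ) * S.h ≤ 1 := by
      have h5 : (w : ℝ) ≤ S.V := by exact_mod_cast hw.2
      have h51 := mul_le_mul_of_nonneg_right h5 hh.le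
      linarith
    have h6 : (w : ℝ) * S.h / (S.K * S.L) ≤ 1 / K := by
      rw [div_le_div_iff₀ hKL hK0, hSK, one_mul]
      have h61 := mul_le_mul_of_nonneg_right (le_trans h4 hL1) hK0.le
      rw [mul_comm S.L] at h61
      exact h61
    have h7 : 0 ≤ (w : ℝ) * S.h / (S.K * S.L) := by positivity
    have h8 : 4 * M ^ 2 * ((w : ℝ) * S.h / (S.K * S.L)) ^ 2 * S.N ≤
        4 * M ^ 2 * (1 / K) ^ 2 * S.N := by gcongr
    linarith
  have hV0 : (0 : ℝ) < S.V := by exact_mod_cast hV1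
  have hsum2 : ∑ w ∈ Icc 1 S.V, 4 / (S.V : ℝ) * Dg g (w : ℤ) ≤
      4 * ((10 * M ^ 2 * ε + 4 * M ^ 2 * (1 / K) ^ 2) * S.N) := by
    have h1 : ∑ w ∈ Icc 1 S.V, 4 / (S.V : ℝ) * Dg g (w : ℤ) ≤
        ∑ _w ∈ Icc 1 S.V, 4 / (S.V : ℝ) *
          ((10 * M ^ 2 * ε + 4 * M ^ 2 * (1 / K) ^ 2) * S.N) := by
      refine Finset.sum_le_sum fun w hw' => ?_
      exact mul_le_mul_of_nonneg_left (hw w hw') (by positivity)
    refine le_trans h1 (le_of_eq ?_)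
    rw [Finset.sum_const, Nat.card_Icc, Nat.add_sub_cancel, nsmul_eq_mul]
    field_simp
  -- the end
  have hfin := le_trans hleft (le_trans hspc (add_le_add hsum1 hsum2))
  refine le_trans hfin ?_
  have hε2 : ε ^ 2 ≤ ε := by nlinarith
  have hKi : 0 < 1 / (K : ℝ) ^ 2 := by positivity
  have e1 : (((B : ℝ) + 1) / K) ^ 2 = ((B : ℝ) + 1) ^ 2 * (1 / (K : ℝ) ^ 2) := by
    rw [div_pow]
    ring
  have e2 : (1 / (K : ℝ)) ^ 2 = 1 / (K : ℝ) ^ 2 := by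
    rw [div_pow, one_pow]
  rw [e1, e2]
  set T := 1 / (K : ℝ) ^ 2 with hT
  have hb0 : (0 : ℝ) ≤ B := Nat.cast_nonneg B
  have hM0 : 0 ≤ M ^ 2 := sq_nonneg M
  have i1 : 2 * (ε ^ 2 * B + 4 * M ^ 2 * ε) * S.N + 4 * M ^ 2 * (((B : ℝ) + 1) ^ 2 * T) * S.N * B ≤
      (2 * (B + 4 * M ^ 2) + 4 * M ^ 2 * ((B : ℝ) + 1) ^ 2 * B) * ((ε + T) * S.N) := by
    have j1 : 2 * (ε ^ 2 * B + 4 * M ^ 2 * ε) * S.N ≤ 2 * (B + 4 * M ^ 2) * (ε * S.N) := by
      have j2 : ε ^ 2 * B + 4 * M ^ 2 * ε ≤ (B + 4 * M ^ 2) * ε := by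
        have j5 := mul_le_mul_of_nonneg_right hε2 hb0
        have j6 : (B + 4 * M ^ 2) * ε = ε * B + 4 * M ^ 2 * ε := by ring
        rw [j6]
        linarith
      calc 2 * (ε ^ 2 * B + 4 * M ^ 2 * ε) * S.N ≤ 2 * ((B + 4 * M ^ 2) * ε) * S.N := by gcongr
        _ = _ := by ring
    have j3 : 0 ≤ 2 * (B + 4 * M ^ 2) * (T * S.N) := by positivity
    have j4 : 0 ≤ 4 * M ^ 2 * ((B : ℝ) + 1) ^ 2 * B * (ε * S.N) := by positivity
    have j7 : (2 * (B + 4 * M ^ 2) + 4 * M ^ 2 * ((B : ℝ) + 1) ^ 2 * B) * ((ε + T) * S.N) =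
        2 * (B + 4 * M ^ 2) * (ε * S.N) + 2 * (B + 4 * M ^ 2) * (T * S.N) +
        4 * M ^ 2 * ((B : ℝ) + 1) ^ 2 * B * (ε * S.N) +
        4 * M ^ 2 * (((B : ℝ) + 1) ^ 2 * T) * S.N * B := by ring
    rw [j7]
    linarith
  have i2 : 4 * ((10 * M ^ 2 * ε + 4 * M ^ 2 * T) * S.N) ≤
      4 * (10 * M ^ 2 + 4 * M ^ 2) * ((ε + T) * S.N) := by
    have j1 : 0 ≤ M ^ 2 * (T * S.N) := by positivity
    have j2 : 0 ≤ M ^ 2 * (ε * S.N) := by positivity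
    have j3 : 4 * (10 * M ^ 2 + 4 * M ^ 2) * ((ε + T) * S.N) =
        4 * ((10 * M ^ 2 * ε + 4 * M ^ 2 * T) * S.N) + 16 * (M ^ 2 * (ε * S.N)) +
        40 * (M ^ 2 * (T * S.N)) := by ring
    rw [j3]
    linarith
  have i3 : 0 ≤ (ε + T) * S.N := by positivity
  have i4 := mul_le_mul_of_nonneg_left i1 hC₀.le
  have i5 : (C₀ * (2 * (B + 4 * M ^ 2) + 4 * M ^ 2 * ((B : ℝ) + 1) ^ 2 * B) +
      4 * (10 * M ^ 2 + 4 * M ^ 2) + 1) * (ε + T) * S.N =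
      C₀ * ((2 * (B + 4 * M ^ 2) + 4 * M ^ 2 * ((B : ℝ) + 1) ^ 2 * B) * ((ε + T) * S.N)) +
      4 * (10 * M ^ 2 + 4 * M ^ 2) * ((ε + T) * S.N) + (ε + T) * S.N := by ring
  rw [i5]
  linarith

end Pool.Agent.H78.GX.H51.N4D
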